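import Mathlib

/-!
# Parts of numbers formed by digits at given places, and sets of shifts of slow growth
-/

set_option autoImplicit false

namespace Pool.Agent.Q217.TE

open Finset

/-- the number formed by the base-`k` digits of `n` at the places in `I` -/
def part (k : ℕ) (I : Finset ℕ) (n : ℕ) : ℕ := ∑ j ∈ I, (n / k ^ j % k) * k ^ j

lemma sum_digits (k J n : ℕ) : ∑ j ∈ range J, (n / k ^ j % k) * k ^ j = n % k ^ J := by
  induction J with
  | zero => simp [Nat.mod_one]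
  | succ J ih => rw [sum_range_succ, ih, Nat.mod_pow_succ]; ring

lemma digit_sum (k : ℕ) (hk : 2 ≤ k) (i : ℕ) : ∀ (f : ℕ → ℕ), (∀ j, f j < k) → ∀ J, i < J →
    (∑ j ∈ range J, f j * k ^ j) / k ^ i % k = f i := by
  induction i with
  | zero =>
    intro f hf J hJ
    obtain ⟨J, rfl⟩ : ∃ J', J = J' + 1 := ⟨J - 1, by omega⟩
    rw [sum_range_succ']
    have h1 : ∑ j ∈ range J, f (j + 1) * k ^ (j + 1) = k * ∑ j ∈ range J, f (j + 1) * k ^ j := by
      rw [mul_sum]; apply sum_congr rfl; intro j _; ring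
    rw [h1]
    simp only [pow_zero, mul_one, Nat.div_one]
    rw [Nat.mul_add_mod, Nat.mod_eq_of_lt (hf 0)]
  | succ i ih =>
    intro f hf J hJ
    obtain ⟨J, rfl⟩ : ∃ J', J = J' + 1 := ⟨J - 1, by omega⟩
    rw [sum_range_succ']
    have h1 : ∑ j ∈ range J, f (j + 1) * k ^ (j + 1) = k * ∑ j ∈ range J, f (j + 1) * k ^ j := by
      rw [mul_sum]; apply sum_congr rfl; intro j _; ring
    rw [h1, pow_succ', ← Nat.div_div_eq_div_mul, pow_zero, mul_one, Nat.mul_add_div (by omega),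
      Nat.div_eq_of_lt (hf 0), add_zero]
    exact ih (fun j => f (j + 1)) (fun j => hf _) J (by omega)

lemma part_le (k : ℕ) (I : Finset ℕ) (J n : ℕ) (hI : I ⊆ range J) : part k I n ≤ n := by
  calc part k I n ≤ ∑ j ∈ range J, (n / k ^ j % k) * k ^ j :=
        sum_le_sum_of_subset hI
    _ = n % k ^ J := sum_digits k J n
    _ ≤ n := Nat.mod_le _ _

lemma part_mix (k : ℕ) (hk : 2 ≤ k) (I : Finset ℕ) (J n m : ℕ) (hI : I ⊆ range J)
    (hn : n < k ^ J) : part k I ((n - part k I n) + part k I m) = part k I m := by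
  classical
  set f : ℕ → ℕ := fun j => if j ∈ I then m / k ^ j % k else n / k ^ j % k with hf
  have hfk : ∀ j, f j < k := by
    intro j; simp only [hf]
    split_ifs <;> exact Nat.mod_lt _ (by omega)
  have h1 : n = ∑ j ∈ range J \ I, (n / k ^ j % k) * k ^ j + part k I n := by
    rw [part, sum_sdiff hI, sum_digits, Nat.mod_eq_of_lt hn]
  have h2 : n - part k I n = ∑ j ∈ range J \ I, (n / k ^ j % k) * k ^ j := by omega
  have h3 : (n - part k I n) + part k I m = ∑ j ∈ range J, f j * k ^ j := by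
    rw [h2, part, ← sum_sdiff hI]
    congr 1
    · apply sum_congr rfl
      intro j hj
      rw [mem_sdiff] at hj
      simp [hf, hj.2]
    · apply sum_congr rfl
      intro j hj
      simp [hf, hj]
  rw [h3]
  unfold part
  apply sum_congr rfl
  intro j hj
  rw [digit_sum k hk j f hfk J (mem_range.1 (hI hj))]
  simp [hf, hj]

/-- the sums `∑ x_j k^j`, `j` in `I`, `0 ≤ x_j ≤ h (k - 1)` -/
def shifts (k : ℕ) (I : Finset ℕ) (h : ℕ) : Finset ℕ :=
  (Fintype.piFinset (fun _ : I => range (h * (k - 1) + 1))).image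
    (fun x => ∑ j : I, x j * k ^ (j : ℕ))

lemma card_shifts_le (k : ℕ) (I : Finset ℕ) (h : ℕ) :
    (shifts k I h).card ≤ (h * (k - 1) + 1) ^ I.card := by
  refine card_image_le.trans ?_
  rw [Fintype.card_piFinset]
  simp

lemma shifts_pos (k : ℕ) (I : Finset ℕ) (h : ℕ) : 0 < (shifts k I h).card := by
  rw [card_pos]
  refine ⟨0, ?_⟩
  rw [shifts, mem_image]
  exact ⟨fun _ => 0, by rw [Fintype.mem_piFinset]; intro a; simp, by simp⟩

lemma shifts_add (k : ℕ) (hk : 2 ≤ k) (I I' : Finset ℕ) (hI : I' ⊆ I) (h s n : ℕ)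
    (hs : s ∈ shifts k I h) : s + part k I' n ∈ shifts k I (h + 1) := by
  classical
  rw [shifts, mem_image] at hs ⊢
  obtain ⟨x, hx, rfl⟩ := hs
  rw [Fintype.mem_piFinset] at hx
  refine ⟨fun j => x j + if (j : ℕ) ∈ I' then n / k ^ (j : ℕ) % k else 0, ?_, ?_⟩
  · rw [Fintype.mem_piFinset]
    intro j
    have h1 := mem_range.1 (hx j)
    have h2 : (if (j : ℕ) ∈ I' then n / k ^ (j : ℕ) % k else 0) ≤ k - 1 := by
      split_ifs
      · have := Nat.mod_lt (n / k ^ (j : ℕ)) (by omega : k > 0); omega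
      · omega
    rw [mem_range]
    have : (h + 1) * (k - 1) = h * (k - 1) + (k - 1) := by ring
    omega
  · simp only [add_mul, sum_add_distrib]
    congr 1
    rw [part]
    have h3 : ∑ j : I, (if (j : ℕ) ∈ I' then n / k ^ (j : ℕ) % k else 0) * k ^ (j : ℕ) =
        ∑ j ∈ I, (if j ∈ I' then n / k ^ j % k else 0) * k ^ j :=
      Finset.sum_coe_sort I (fun j => (if j ∈ I' then n / k ^ j % k else 0) * k ^ j)
    rw [h3]
    simp only [ite_mul, zero_mul]
    rw [sum_ite_mem, inter_eq_right.2 hI]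

lemma shifts_le (k : ℕ) (hk : 2 ≤ k) (I : Finset ℕ) (h e s : ℕ) (hI : I ⊆ range e)
    (hs : s ∈ shifts k I h) : s ≤ h * k ^ e := by
  rw [shifts, mem_image] at hs
  obtain ⟨x, hx, rfl⟩ := hs
  rw [Fintype.mem_piFinset] at hx
  have h1 : ∑ j : I, x j * k ^ (j : ℕ) ≤ ∑ j : I, (h * (k - 1)) * k ^ (j : ℕ) := by
    apply sum_le_sum
    intro j _
    exact Nat.mul_le_mul_right _ (by have := mem_range.1 (hx j); omega)
  refine h1.trans ?_
  rw [Finset.sum_coe_sort I (fun j => (h * (k - 1)) * k ^ j), ← mul_sum]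
  have h2 : (k - 1) * ∑ j ∈ I, k ^ j ≤ k ^ e := by
    calc (k - 1) * ∑ j ∈ I, k ^ j ≤ (k - 1) * ∑ j ∈ range e, k ^ j :=
          Nat.mul_le_mul_left _ (sum_le_sum_of_subset hI)
      _ ≤ k ^ e := by
          clear hI
          induction e with
          | zero => simp
          | succ e ih =>
            rw [sum_range_succ, mul_add, pow_succ]
            obtain ⟨k', rfl⟩ : ∃ k', k = k' + 1 := ⟨k - 1, by omega⟩
            simp only [Nat.add_sub_cancel] at ih ⊢
            nlinarith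
  calc h * (k - 1) * ∑ j ∈ I, k ^ j = h * ((k - 1) * ∑ j ∈ I, k ^ j) := by ring
    _ ≤ h * k ^ e := Nat.mul_le_mul_left _ h2

/-- slow growth of the sets of shifts -/
lemma exists_slow (k Q R D : ℕ) (hk : 2 ≤ k) (hR : R < D) : ∃ h₀ : ℕ, ∀ I : Finset ℕ, I.card ≤ Q →
    ∃ h < h₀, R * (shifts k I (h + 1)).card < D * (shifts k I h).card := by
  rcases Nat.eq_zero_or_pos R with h0 | h0
  · refine ⟨1, fun I _ => ⟨0, Nat.one_pos, ?_⟩⟩
    subst h0
    have := shifts_pos k I 0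
    nlinarith
  have hr : (1 : ℝ) < (R + 1 : ℝ) / R := by
    rw [lt_div_iff₀ (by exact_mod_cast h0)]; linarith
  have h1 := tendsto_pow_const_div_const_pow_of_one_lt Q hr
  have h2 : ∀ᶠ n : ℕ in Filter.atTop, (n : ℝ) ^ Q / ((R + 1 : ℝ) / R) ^ n < 1 / (k : ℝ) ^ Q :=
    h1.eventually (gt_mem_nhds (by positivity))
  obtain ⟨N, hN⟩ := Filter.eventually_atTop.1 h2
  set h₀ := N + 1 with hh₀
  have h3 := hN h₀ (by omega)
  have hkey : (R : ℝ) ^ h₀ * ((h₀ : ℝ) * k) ^ Q < (R + 1 : ℝ) ^ h₀ := by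
    have hRp : (0 : ℝ) < R := by exact_mod_cast h0
    rw [div_pow, div_lt_div_iff₀ (by positivity) (by positivity)] at h3
    rw [mul_pow]
    have h4 : (R : ℝ) ^ h₀ * ((h₀ : ℝ) ^ Q * (k : ℝ) ^ Q) =
        (R : ℝ) ^ h₀ * ((h₀ : ℝ) ^ Q * (k : ℝ) ^ Q) := rfl
    have h5 : (h₀ : ℝ) ^ Q * (k : ℝ) ^ Q < 1 * ((R + 1 : ℝ) ^ h₀ / (R : ℝ) ^ h₀) := h3
    rw [one_mul, lt_div_iff₀ (by positivity)] at h5
    linarith
  refine ⟨h₀, fun I hI => ?_⟩
  by_contra hcon
  push Not at hcon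
  have hind : ∀ h, h ≤ h₀ → D ^ h ≤ R ^ h * (shifts k I h).card := by
    intro h
    induction h with
    | zero => intro _; simpa using shifts_pos k I 0
    | succ h ih =>
      intro hle
      have e1 := ih (by omega)
      have e2 := hcon h (by omega)
      calc D ^ (h + 1) = D ^ h * D := pow_succ _ _
        _ ≤ (R ^ h * (shifts k I h).card) * D := Nat.mul_le_mul_right _ e1
        _ = R ^ h * (D * (shifts k I h).card) := by ring
        _ ≤ R ^ h * (R * (shifts k I (h + 1)).card) := Nat.mul_le_mul_left _ e2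
        _ = R ^ (h + 1) * (shifts k I (h + 1)).card := by ring
  have e1 := hind h₀ le_rfl
  have e2 : (shifts k I h₀).card ≤ (h₀ * k) ^ Q := by
    refine (card_shifts_le k I h₀).trans ?_
    have e3 : h₀ * (k - 1) + 1 ≤ h₀ * k := by
      obtain ⟨k', rfl⟩ : ∃ k', k = k' + 1 := ⟨k - 1, by omega⟩
      simp only [Nat.add_sub_cancel]
      have : 1 ≤ h₀ := by omega
      nlinarith
    calc (h₀ * (k - 1) + 1) ^ I.card ≤ (h₀ * k) ^ I.card := Nat.pow_le_pow_left e3 _
      _ ≤ (h₀ * k) ^ Q := Nat.pow_le_pow_right (by positivity) hI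
  have e4 : (R + 1) ^ h₀ ≤ R ^ h₀ * (h₀ * k) ^ Q :=
    (Nat.pow_le_pow_left hR _).trans (e1.trans (Nat.mul_le_mul_left _ e2))
  have e5 : ((R + 1 : ℕ) : ℝ) ^ h₀ ≤ (R : ℝ) ^ h₀ * ((h₀ : ℝ) * k) ^ Q := by exact_mod_cast e4
  push_cast at e5
  linarith

end Pool.Agent.Q217.TE
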