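import Mathlib
import Pool.Agent.Q217.TE.Digits

/-!
# A linear relation between shifted windows
-/

set_option autoImplicit false

namespace Pool.Agent.Q217.TE

open Finset

lemma relation (k : ℕ) (hk : 2 ≤ k) (J R : ℕ) (U T T1 : Finset ℕ) (I : Fin R → Finset ℕ)
    (hI : ∀ i, I i ⊆ range J) (hT : ∀ s ∈ T, ∀ i n, s + part k (I i) n ∈ T1)
    (hcard : R * T1.card < U.card * T.card) (α : ℕ → Fin R → ℕ → ℝ) (W : Fin R → ℕ → ℝ) :
    ∃ a : U × T → ℝ, a ≠ 0 ∧ ∀ n < k ^ J, (∀ s ∈ T, s ≤ n) →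
      ∑ x : U × T, a x * (∑ i, α x.1 i (part k (I i) (n - x.2)) *
        W i ((n - x.2) - part k (I i) (n - x.2))) = 0 := by
  classical
  let co : (U × T) → (Fin R × T1) → ℝ := fun x y =>
    if (x.2 : ℕ) ≤ y.2 ∧ ∃ m, part k (I y.1) m = (y.2 : ℕ) - x.2 then
      α x.1 y.1 ((y.2 : ℕ) - x.2) else 0
  let Φ : (U × T → ℝ) →ₗ[ℝ] (Fin R × T1 → ℝ) :=
    { toFun := fun a y => ∑ x, a x * co x y
      map_add' := by
        intro a b; funext y
        simp only [Pi.add_apply, add_mul, sum_add_distrib]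
      map_smul' := by
        intro r a; funext y
        simp only [Pi.smul_apply, smul_eq_mul, RingHom.id_apply, mul_assoc, mul_sum] }
  have hrank : Module.finrank ℝ (Fin R × T1 → ℝ) < Module.finrank ℝ (U × T → ℝ) := by
    rw [Module.finrank_fintype_fun_eq_card, Module.finrank_fintype_fun_eq_card]
    simp only [Fintype.card_prod, Fintype.card_fin, Fintype.card_coe]
    exact hcard
  have hker := LinearMap.ker_ne_bot_of_finrank_lt (f := Φ) hrank
  obtain ⟨a, ha, ha0⟩ := (Submodule.ne_bot_iff _).1 hker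
  refine ⟨a, ha0, ?_⟩
  have hΦ : ∀ y : Fin R × T1, ∑ x, a x * co x y = 0 := by
    intro y
    have := congrFun (LinearMap.mem_ker.1 ha) y
    exact this
  intro n hn hTn
  simp only [mul_sum]
  rw [sum_comm]
  apply sum_eq_zero
  intro i _
  -- group by the value of the rest
  set rest : ℕ → ℕ := fun z => z - part k (I i) z with hrest
  have hpl : ∀ z, part k (I i) z ≤ z := fun z => part_le k (I i) J z (hI i)
  rw [← sum_fiberwise_of_maps_to (s := (univ : Finset (U × T)))
    (t := (univ : Finset (U × T)).image (fun x => rest (n - x.2)))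
    (g := fun x => rest (n - x.2)) (fun x hx => mem_image_of_mem _ hx)]
  apply sum_eq_zero
  intro w hw
  rw [mem_image] at hw
  obtain ⟨x0, -, hx0⟩ := hw
  set z0 := n - (x0.2 : ℕ) with hz0
  have hz0lt : z0 < k ^ J := lt_of_le_of_lt (Nat.sub_le _ _) hn
  have hwle : w ≤ n := by
    rw [← hx0]; exact (Nat.sub_le _ _).trans (Nat.sub_le _ _)
  have hmix : ∀ m, part k (I i) (w + part k (I i) m) = part k (I i) m := by
    intro m; rw [← hx0]; exact part_mix k hk (I i) J z0 m (hI i) hz0lt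
  have hσ : n - w = (x0.2 : ℕ) + part k (I i) z0 := by
    have h1 := hTn x0.2 x0.2.2
    have h2 := hpl z0
    have h3 : w = z0 - part k (I i) z0 := hx0.symm
    omega
  have hσT : n - w ∈ T1 := by rw [hσ]; exact hT _ x0.2.2 _ _
  have hΦ' := hΦ (i, ⟨n - w, hσT⟩)
  have hcond : ∀ x : U × T, rest (n - x.2) = w ↔
      ((x.2 : ℕ) ≤ n - w ∧ ∃ m, part k (I i) m = (n - w) - x.2) := by
    intro x
    have hxn := hTn x.2 x.2.2
    constructor
    · intro h
      have h2 := hpl (n - x.2)
      have h3 : n - (x.2 : ℕ) - part k (I i) (n - x.2) = w := h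
      refine ⟨by omega, n - x.2, by omega⟩
    · rintro ⟨h1, m, hm⟩
      have h2 : n - (x.2 : ℕ) = w + part k (I i) m := by omega
      change n - (x.2 : ℕ) - part k (I i) (n - x.2) = w
      rw [h2, hmix m]
      omega
  have hterm : ∀ x ∈ (univ : Finset (U × T)).filter (fun x => rest (n - x.2) = w),
      a x * (α x.1 i (part k (I i) (n - x.2)) * W i ((n - x.2) - part k (I i) (n - x.2))) =
        a x * co x (i, ⟨n - w, hσT⟩) * W i w := by
    intro x hx
    rw [mem_filter] at hx
    have hc := (hcond x).1 hx.2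
    have hco : co x (i, ⟨n - w, hσT⟩) = α x.1 i ((n - w) - x.2) := if_pos hc
    rw [hco]
    have h3 : n - (x.2 : ℕ) - part k (I i) (n - x.2) = w := hx.2
    have hxn := hTn x.2 x.2.2
    have h2 := hpl (n - x.2)
    have h4 : part k (I i) (n - x.2) = (n - w) - x.2 := by omega
    rw [h3, h4]
    ring
  rw [sum_congr rfl hterm, ← sum_mul]
  have hsum : ∑ x ∈ (univ : Finset (U × T)).filter (fun x => rest (n - x.2) = w),
      a x * co x (i, ⟨n - w, hσT⟩) = ∑ x, a x * co x (i, ⟨n - w, hσT⟩) := by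
    apply sum_subset (filter_subset _ _)
    intro x _ hx
    rw [mem_filter] at hx
    have hnc : ¬ ((x.2 : ℕ) ≤ n - w ∧ ∃ m, part k (I i) m = (n - w) - x.2) := by
      intro h
      exact hx ⟨mem_univ _, (hcond x).2 h⟩
    have hco : co x (i, ⟨n - w, hσT⟩) = 0 := if_neg hnc
    rw [hco, mul_zero]
  rw [hsum, hΦ', zero_mul]

end Pool.Agent.Q217.TE
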