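import Mathlib
import Pool.Agent.Q217.TE.Relation
import Pool.Agent.H352.Win.Expansion

/-!
# One scale: a sequence of small rank differs from the digits of an algebraic number in many places
-/

set_option autoImplicit false

namespace Pool.Agent.Q217.TE

open Finset

/-- At the scale `J` the sequence `g` has rank at most `R` with respect to the `p` leading base-`k`
digits: for `u` with exactly `p` digits and `n < k ^ J` the value `g (u * k ^ J + n)` is a sum of
`R` terms; the `i`-th term is the product of a function of `u` and of the (at most `q`) digits of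
`n` at the places in `I i`, and of a function of the other digits of `n`. -/
def OneScale (k p q R J : ℕ) (g : ℕ → ℝ) : Prop :=
  ∃ (I : Fin R → Finset ℕ) (α : ℕ → Fin R → ℕ → ℝ) (W : Fin R → ℕ → ℝ), (∀ i, (I i).card ≤ q) ∧
    ∀ u, k ^ (p - 1) ≤ u → u < k ^ p → ∀ n < k ^ J, g (u * k ^ J + n) =
      ∑ i, α u i (part k (I i) n) * W i (n - part k (I i) n)

theorem one_scale (b : ℕ) (hb : 2 ≤ b) (ξ : ℝ) (hξ : IsAlgebraic ℚ ξ) (hirr : Irrational ξ)
    (B k p q R K : ℕ) (hk : 2 ≤ k) (hR : R < k ^ p - k ^ (p - 1)) :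
    ∃ J₀ : ℕ, ∀ c : ℕ → ℤ, (∀ n, 1 ≤ n → |c n| ≤ B) →
      HasSum (fun n : ℕ => (c n : ℝ) / (b : ℝ) ^ n) ξ →
      ∀ J ≥ J₀, ∀ g : ℕ → ℝ, OneScale k p q R J g →
        K < ((Ico (k ^ (p - 1) * k ^ J) (k ^ p * k ^ J)).filter (fun n => (c n : ℝ) ≠ g n)).card := by
  classical
  have hk0 : 0 < k := by omega
  obtain ⟨h₀, hh⟩ := exists_slow k (R * q) R (k ^ p - k ^ (p - 1)) hk hR
  set c0 := 4 * h₀ + 4 with hc0
  have hkc0 : 4 * (h₀ + 1) ≤ k ^ c0 := by
    have h1 : c0 < 2 ^ c0 := Nat.lt_two_pow_self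
    have h2 : 2 ^ c0 ≤ k ^ c0 := Nat.pow_le_pow_left hk _
    omega
  set Dmax := (k ^ p) * ((h₀ * (k - 1) + 1) ^ (R * q)) with hDmax
  set C := 2 * k ^ (p + (R * q + 1) * c0) with hC
  choose M hM using fun D : ℕ =>
    Pool.Agent.H352.Win.expansion b hb ξ hξ hirr B D 0 (Dmax * K) C (1 / 2) (by norm_num)
  set Ms := (range (Dmax + 1)).sup M with hMs
  refine ⟨(R * q + 1) * c0 + Ms + 2, ?_⟩
  rintro c hcB hsum J hJ g ⟨I, α, W, hIq, hg⟩
  -- the gap
  set II := (univ : Finset (Fin R)).biUnion I with hII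
  have hIIc : II.card ≤ R * q := by
    refine card_biUnion_le.trans ?_
    calc ∑ i : Fin R, (I i).card ≤ ∑ _i : Fin R, q := sum_le_sum (fun i _ => hIq i)
      _ = R * q := by simp
  obtain ⟨l, hl1, hl2⟩ : ∃ l ∈ range (R * q + 1), l ∉ II.image (fun j => (J - 1 - j) / c0) := by
    apply exists_mem_notMem_of_card_lt_card
    rw [card_range]
    exact lt_of_le_of_lt card_image_le (by omega)
  rw [mem_range] at hl1
  have hlc : l * c0 ≤ R * q * c0 := Nat.mul_le_mul_right _ (by omega)
  have hexp : (R * q + 1) * c0 = R * q * c0 + c0 := by ring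
  have hlexp : (l + 1) * c0 = l * c0 + c0 := by ring
  set J' := J - l * c0 with hJ'
  set e := J' - c0 with he
  have hJ'1 : c0 + Ms + 2 ≤ J' := by omega
  have hJJ' : J = J' + l * c0 := by omega
  have hJ'e : J' = e + c0 := by omega
  set I' : Fin R → Finset ℕ := fun i => (I i).filter (fun j => j < e) with hI'
  have hpart : ∀ i n, n < k ^ J' → part k (I i) n = part k (I' i) n := by
    intro i n hn
    unfold part
    rw [hI', sum_filter]
    apply sum_congr rfl
    intro j hj
    split_ifs with hje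
    · rfl
    · have hj2 : J' ≤ j := by
        by_contra hlt
        push Not at hlt
        apply hl2
        rw [mem_image]
        refine ⟨j, by rw [hII, mem_biUnion]; exact ⟨i, mem_univ _, hj⟩, ?_⟩
        apply Nat.div_eq_of_lt_le
        · omega
        · rw [hlexp]; omega
      have h2 : n / k ^ j = 0 :=
        Nat.div_eq_of_lt (lt_of_lt_of_le hn (Nat.pow_le_pow_right hk0 hj2))
      rw [h2, Nat.zero_mod, zero_mul]
  set II' := II.filter (fun j => j < e) with hII'
  have hII'c : II'.card ≤ R * q := (card_filter_le _ _).trans hIIc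
  have hII'e : II' ⊆ range e := by
    intro j hj; rw [hII', mem_filter] at hj; exact mem_range.2 hj.2
  have hI'II' : ∀ i, I' i ⊆ II' := by
    intro i j hj
    rw [hI', mem_filter] at hj
    rw [hII', mem_filter, hII, mem_biUnion]
    exact ⟨⟨i, mem_univ _, hj.1⟩, hj.2⟩
  obtain ⟨h, hh1, hh2⟩ := hh II' hII'c
  set T := shifts k II' h with hT
  set T1 := shifts k II' (h + 1) with hT1
  set U := Ico (k ^ (p - 1)) (k ^ p) with hU
  have hUc : U.card = k ^ p - k ^ (p - 1) := by rw [hU, Nat.card_Ico]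
  have hI'J' : ∀ i, I' i ⊆ range J' := by
    intro i j hj
    have := mem_range.1 (hII'e (hI'II' i hj))
    rw [mem_range]; omega
  obtain ⟨a, ha0, ha⟩ := relation k hk J' R U T T1 I' hI'J'
    (fun s hs i n => shifts_add k hk II' (I' i) (hI'II' i) h s n hs)
    (by rw [hUc]; exact hh2) α W
  set S0 := h₀ * k ^ e + 1 with hS0
  have hTS : ∀ s ∈ T, s < S0 := by
    intro s hs
    have h1 := shifts_le k hk II' h e s hII'e hs
    have h2 : h * k ^ e ≤ h₀ * k ^ e := Nat.mul_le_mul_right _ hh1.le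
    omega
  have hS0J' : 4 * S0 ≤ k ^ J' := by
    have h1 : 1 ≤ k ^ e := Nat.one_le_pow _ _ hk0
    have h2 : S0 ≤ (h₀ + 1) * k ^ e := by rw [hS0]; nlinarith
    calc 4 * S0 ≤ 4 * ((h₀ + 1) * k ^ e) := Nat.mul_le_mul_left _ h2
      _ = (4 * (h₀ + 1)) * k ^ e := by ring
      _ ≤ k ^ c0 * k ^ e := Nat.mul_le_mul_right _ hkc0
      _ = k ^ J' := by rw [← pow_add, hJ'e]; congr 1; omega
  set m := k ^ J' - S0 with hm
  have hm2 : k ^ J' ≤ 2 * m := by omega
  have hkJ : k ^ J' ≤ k ^ J := Nat.pow_le_pow_right hk0 (by omega)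
  have hMm : Ms ≤ m := by
    have h1 : J' < 2 ^ J' := Nat.lt_two_pow_self
    have h2 : 2 ^ J' ≤ k ^ J' := Nat.pow_le_pow_left hk _
    have h3 : 2 ^ J' = 2 * 2 ^ (J' - 1) := by
      rw [← pow_succ']; congr 1; omega
    have h4 : J' - 1 < 2 ^ (J' - 1) := Nat.lt_two_pow_self
    omega
  set D := Fintype.card (U × T) with hD
  have hDle : D ≤ Dmax := by
    rw [hD, Fintype.card_prod, Fintype.card_coe, Fintype.card_coe, hUc, hDmax]
    apply Nat.mul_le_mul (Nat.sub_le _ _)
    refine (card_shifts_le k II' h).trans ?_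
    have e1 : h * (k - 1) + 1 ≤ h₀ * (k - 1) + 1 := by
      have := Nat.mul_le_mul_right (k - 1) hh1.le
      omega
    calc (h * (k - 1) + 1) ^ II'.card ≤ (h₀ * (k - 1) + 1) ^ II'.card :=
          Nat.pow_le_pow_left e1 _
      _ ≤ _ := Nat.pow_le_pow_right (by omega) hII'c
  let eq : Fin D ≃ U × T := (Fintype.equivFin (U × T)).symm
  let t : Fin D → ℕ := fun j => ((eq j).1 : ℕ) * k ^ J + (S0 - 1 - ((eq j).2 : ℕ))
  have ht1 : ∀ j i, t j + i + 1 = ((eq j).1 : ℕ) * k ^ J + (S0 + i - ((eq j).2 : ℕ)) := by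
    intro j i
    have := hTS _ (eq j).2.2
    simp only [t]
    omega
  have hMD : M D ≤ m := by
    refine le_trans ?_ hMm
    rw [hMs]
    exact le_sup (f := M) (mem_range.2 (by omega))
  have hlast := hM D c hcB hsum m hMD t ?_ ?_ (fun j => a (eq j)) ?_ (fun l => l.elim0)
    (fun l => l.elim0) ?_ (fun l => l.elim0) (fun l => l.elim0)
  · -- conclusion
    by_contra hcon
    push Not at hcon
    set bad := (Ico (k ^ (p - 1) * k ^ J) (k ^ p * k ^ J)).filter
      (fun n => (c n : ℝ) ≠ g n) with hbad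
    have hsub : ((range m).filter (fun i => ∑ j, a (eq j) * (c (t j + i + 1) : ℝ) ≠
        ∑ l : Fin 0, (l.elim0 : ℝ))) ⊆
        ((univ : Finset (Fin D)) ×ˢ bad).image (fun x => x.2 - t x.1 - 1) := by
      intro i hi
      rw [mem_filter, mem_range] at hi
      obtain ⟨hi1, hi2⟩ := hi
      have hzero : ∑ j, a (eq j) * g (t j + i + 1) = 0 := by
        have h1 := ha (S0 + i) (by omega) (fun s hs => by have := hTS s hs; omega)
        rw [← Equiv.sum_comp eq] at h1
        rw [← h1]
        apply sum_congr rfl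
        intro j _
        congr 1
        rw [ht1]
        have hu := mem_Ico.1 (eq j).1.2
        have hlt : S0 + i - ((eq j).2 : ℕ) < k ^ J' := by omega
        rw [hg _ hu.1 hu.2 _ (by omega)]
        apply sum_congr rfl
        intro i' _
        rw [hpart i' _ hlt]
      have hex : ∃ j, (c (t j + i + 1) : ℝ) ≠ g (t j + i + 1) := by
        by_contra hno
        push Not at hno
        apply hi2
        rw [Fin.sum_univ_zero, ← hzero]
        apply sum_congr rfl
        intro j _
        rw [hno j]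
      obtain ⟨j, hj⟩ := hex
      rw [mem_image]
      refine ⟨(j, t j + i + 1), ?_, by simp only; omega⟩
      rw [mem_product]
      refine ⟨mem_univ _, ?_⟩
      rw [hbad, mem_filter]
      refine ⟨?_, hj⟩
      simp only
      rw [ht1, mem_Ico]
      have hu := mem_Ico.1 (eq j).1.2
      have hlt : S0 + i - ((eq j).2 : ℕ) < k ^ J := by omega
      constructor
      · calc k ^ (p - 1) * k ^ J ≤ ((eq j).1 : ℕ) * k ^ J := Nat.mul_le_mul_right _ hu.1
          _ ≤ _ := Nat.le_add_right _ _
      · calc ((eq j).1 : ℕ) * k ^ J + (S0 + i - ((eq j).2 : ℕ))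
            < ((eq j).1 : ℕ) * k ^ J + k ^ J := by omega
          _ = (((eq j).1 : ℕ) + 1) * k ^ J := by ring
          _ ≤ k ^ p * k ^ J := Nat.mul_le_mul_right _ hu.2
    have hcard := card_le_card hsub
    have h2 : (((univ : Finset (Fin D)) ×ˢ bad).image (fun x => x.2 - t x.1 - 1)).card ≤
        Dmax * K := by
      refine card_image_le.trans ?_
      rw [card_product, card_univ, Fintype.card_fin]
      exact Nat.mul_le_mul hDle hcon
    exact absurd (lt_of_lt_of_le hlast (hcard.trans h2)) (lt_irrefl _)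
  · -- injectivity
    intro j j' hjj
    have h1a := ht1 j 0
    have h1b := ht1 j' 0
    rw [hjj] at h1a
    have h1 := h1a.symm.trans h1b
    have hs := hTS _ (eq j).2.2
    have hs' := hTS _ (eq j').2.2
    have hlt : S0 + 0 - ((eq j).2 : ℕ) < k ^ J := by omega
    have hlt' : S0 + 0 - ((eq j').2 : ℕ) < k ^ J := by omega
    have hu : ((eq j).1 : ℕ) = (eq j').1 := by
      have e1 := congrArg (fun z : ℕ => z / k ^ J) h1
      beta_reduce at e1
      rw [mul_comm, Nat.mul_add_div (by positivity), mul_comm, Nat.mul_add_div (by positivity),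
        Nat.div_eq_of_lt hlt, Nat.div_eq_of_lt hlt'] at e1
      simpa using e1
    have hs2 : ((eq j).2 : ℕ) = (eq j').2 := by
      rw [hu] at h1
      omega
    apply eq.injective
    exact Prod.ext (Subtype.ext hu) (Subtype.ext hs2)
  · -- places
    intro j
    have hu := mem_Ico.1 (eq j).1.2
    have h1 : t j ≤ k ^ p * k ^ J := by
      have h2 := ht1 j 0
      have h3 : S0 + 0 - ((eq j).2 : ℕ) < k ^ J := by omega
      calc t j ≤ ((eq j).1 : ℕ) * k ^ J + k ^ J := by omega
        _ = (((eq j).1 : ℕ) + 1) * k ^ J := by ring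
        _ ≤ k ^ p * k ^ J := Nat.mul_le_mul_right _ hu.2
    have h4 : k ^ J ≤ k ^ ((R * q + 1) * c0) * k ^ J' := by
      rw [← pow_add]
      exact Nat.pow_le_pow_right hk0 (by omega)
    calc t j ≤ k ^ p * k ^ J := h1
      _ ≤ k ^ p * (k ^ ((R * q + 1) * c0) * (2 * m)) := by
          apply Nat.mul_le_mul_left
          exact h4.trans (Nat.mul_le_mul_left _ hm2)
      _ = C * m := by rw [hC, pow_add]; ring
  · -- nonzero
    intro h0
    apply ha0
    funext x
    have := congrFun h0 (eq.symm x)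
    simpa using this
  · simp
    positivity

end Pool.Agent.Q217.TE
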