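import Mathlib
import Pool.Agent.Q217.TE.OneScale

/-!
# All scales together
-/

set_option autoImplicit false

namespace Pool.Agent.Q217.TE

open Finset

/-- **Main theorem.** -/
theorem main (b : ℕ) (hb : 2 ≤ b) (ξ : ℝ) (hξ : IsAlgebraic ℚ ξ) (hirr : Irrational ξ)
    (B k p q R A : ℕ) (hk : 2 ≤ k) (hR : R < k ^ p - k ^ (p - 1)) :
    ∃ N₀ : ℕ, ∀ c : ℕ → ℤ, (∀ n, 1 ≤ n → |c n| ≤ B) →
      HasSum (fun n : ℕ => (c n : ℝ) / (b : ℝ) ^ n) ξ →
      ∀ N ≥ N₀, ∀ g : ℕ → ℝ,
        (∀ J, k ^ (p + J) ≤ N → N ≤ (k ^ J) ^ 2 → OneScale k p q R J g) →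
        A * Real.log N ≤ (((Icc 1 N).filter (fun n => (c n : ℝ) ≠ g n)).card : ℝ) := by
  classical
  have hk0 : 0 < k := by omega
  have hp : 1 ≤ p := by
    rcases Nat.eq_zero_or_pos p with h | h
    · subst h; simp at hR
    · exact h
  obtain ⟨J₀, hJ₀⟩ := one_scale b hb ξ hξ hirr B k p q R (4 * A * k) hk hR
  refine ⟨k ^ (2 * J₀ + 4 * p + 3), ?_⟩
  intro c hcB hsum N hN g hg
  have hN0 : N ≠ 0 := by
    have : 0 < k ^ (2 * J₀ + 4 * p + 3) := by positivity
    omega
  set P := Nat.log k N with hP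
  have hP1 : k ^ P ≤ N := Nat.pow_log_le_self k hN0
  have hP2 : N < k ^ (P + 1) := Nat.lt_pow_succ_log_self (by omega) N
  have hP3 : 2 * J₀ + 4 * p + 3 ≤ P := by
    by_contra h
    push Not at h
    have : k ^ (P + 1) ≤ k ^ (2 * J₀ + 4 * p + 3) := Nat.pow_le_pow_right hk0 h
    omega
  let bad : ℕ → Finset ℕ := fun J =>
    (Ico (k ^ (p - 1) * k ^ J) (k ^ p * k ^ J)).filter (fun n => (c n : ℝ) ≠ g n)
  set S := Icc (P / 2 + 1) (P - p) with hS
  have hSc : P / 2 - p ≤ S.card := by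
    rw [hS, Nat.card_Icc]; omega
  have hbad : ∀ J ∈ S, 4 * A * k + 1 ≤ (bad J).card := by
    intro J hJ
    rw [hS, mem_Icc] at hJ
    apply hJ₀ c hcB hsum J (by omega) g
    apply hg
    · exact (Nat.pow_le_pow_right hk0 (by omega)).trans hP1
    · rw [← pow_mul]
      exact hP2.le.trans (Nat.pow_le_pow_right hk0 (by omega))
  have hdisj : ∀ J ∈ S, ∀ J' ∈ S, J ≠ J' → Disjoint (bad J) (bad J') := by
    have aux : ∀ J J', J < J' → Disjoint (bad J) (bad J') := by
      intro J J' hlt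
      rw [disjoint_left]
      intro n h1 h2
      simp only [bad, mem_filter, mem_Ico] at h1 h2
      have h3 : k ^ p * k ^ J ≤ k ^ (p - 1) * k ^ J' := by
        rw [← pow_add, ← pow_add]
        exact Nat.pow_le_pow_right hk0 (by omega)
      omega
    intro J _ J' _ hne
    rcases lt_or_gt_of_ne hne with h | h
    · exact aux J J' h
    · exact (aux J' J h).symm
  have hsub : S.biUnion bad ⊆ (Icc 1 N).filter (fun n => (c n : ℝ) ≠ g n) := by
    intro n hn
    rw [mem_biUnion] at hn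
    obtain ⟨J, hJ, hn⟩ := hn
    simp only [bad, mem_filter, mem_Ico] at hn
    rw [hS, mem_Icc] at hJ
    rw [mem_filter, mem_Icc]
    have h1 : 0 < k ^ (p - 1) * k ^ J := by positivity
    have h2 : k ^ p * k ^ J ≤ N := by
      rw [← pow_add]
      exact (Nat.pow_le_pow_right hk0 (by omega)).trans hP1
    exact ⟨⟨by omega, by omega⟩, hn.2⟩
  have hcard := card_le_card hsub
  rw [card_biUnion hdisj] at hcard
  have h1 : (P / 2 - p) * (4 * A * k + 1) ≤ ∑ J ∈ S, (bad J).card := by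
    calc (P / 2 - p) * (4 * A * k + 1) ≤ S.card * (4 * A * k + 1) := Nat.mul_le_mul_right _ hSc
      _ = ∑ _J ∈ S, (4 * A * k + 1) := by rw [sum_const, smul_eq_mul]
      _ ≤ _ := sum_le_sum hbad
  have h2 : A * ((P + 1) * k) ≤ (P / 2 - p) * (4 * A * k + 1) := by
    have h3 : P + 1 ≤ 4 * (P / 2 - p) := by omega
    calc A * ((P + 1) * k) ≤ A * ((4 * (P / 2 - p)) * k) :=
          Nat.mul_le_mul_left _ (Nat.mul_le_mul_right _ h3)
      _ = (P / 2 - p) * (4 * A * k) := by ring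
      _ ≤ _ := Nat.mul_le_mul_left _ (by omega)
  have h4 : Real.log N ≤ (P + 1) * k := by
    have h5 : Real.log N ≤ Real.log ((k : ℝ) ^ (P + 1)) := by
      apply Real.log_le_log (by exact_mod_cast Nat.pos_of_ne_zero hN0)
      exact_mod_cast hP2.le
    rw [Real.log_pow] at h5
    have h6 : Real.log (k : ℝ) ≤ k := by
      have := Real.log_le_sub_one_of_pos (by exact_mod_cast hk0 : (0 : ℝ) < k)
      linarith
    refine h5.trans ?_
    push_cast
    exact mul_le_mul_of_nonneg_left h6 (by positivity)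
  calc A * Real.log N ≤ A * ((P + 1) * k) := mul_le_mul_of_nonneg_left h4 (Nat.cast_nonneg _)
    _ = ((A * ((P + 1) * k) : ℕ) : ℝ) := by push_cast; ring
    _ ≤ _ := by exact_mod_cast h2.trans (h1.trans hcard)

end Pool.Agent.Q217.TE
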