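import Mathlib
import Pool.Agent.Q217.TE.Scales

/-!
# Two classes of sequences of small rank
-/

set_option autoImplicit false

namespace Pool.Agent.Q217.TE

open Finset

/-- `g` is computed by read-once programs with real weights: there are a number `d` of states and,
for every large `L`, an order `ρ` of the `L` digit places, `d × d` matrices `M i x` and vectors
`a`, `e` such that for the numbers `n` with `L` digits `g n` is `a` times the product of the
matrices `M i x_i` times `e`, where `x_i` is the digit of `n` at the place `ρ i` that is read in the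
step `i`.  The order is arbitrary, except that the `p` leading digits are read in the first
`p + q p` steps, where the function `q` does not depend on `L`. -/
def ReadOnce (k : ℕ) (g : ℕ → ℝ) : Prop :=
  ∃ (d L₀ : ℕ) (q : ℕ → ℕ), ∀ L ≥ L₀, ∃ (ρ : ℕ → ℕ) (M : ℕ → ℕ → Matrix (Fin d) (Fin d) ℝ)
    (a e : Fin d → ℝ), Set.BijOn ρ (Set.Iio L) (Set.Iio L) ∧
    (∀ p ≤ L, ∀ j < L, L - p ≤ j → ∃ i < p + q p, ρ i = j) ∧
    ∀ n, k ^ (L - 1) ≤ n → n < k ^ L → g n =
      a ⬝ᵥ ((((List.range L).map (fun i => M i (n / k ^ (ρ i) % k))).prod).mulVec e)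

/-- `g` is computed by a weighted linear grammar: there are nonterminals `A ∈ Fin d`, weights
`wt A A' x t y` of the rules `A → x A' y`, where `x` is a digit and `y < k ^ t` stands for a word of
`t ≤ C` digits, and the weight `V A L n` of the word of the `L` digits of `n` (from `A`) satisfies
the recursion given by these rules for `L ≥ L₀`; the weights of short words are arbitrary.  `g n` is
the weight of the digits of `n` for the initial distribution `st`. -/
def TwoEnded (k : ℕ) (g : ℕ → ℝ) : Prop :=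
  ∃ (d C L₀ : ℕ) (V : Fin d → ℕ → ℕ → ℝ) (wt : Fin d → Fin d → ℕ → ℕ → ℕ → ℝ) (st : Fin d → ℝ),
    (∀ A L n, L₀ ≤ L → C + 1 ≤ L → n < k ^ L → V A L n = ∑ A', ∑ t ∈ range (C + 1),
      wt A A' (n / k ^ (L - 1)) t (n % k ^ t) * V A' (L - 1 - t) (n / k ^ t % k ^ (L - 1 - t))) ∧
    ∀ L n, L₀ ≤ L → k ^ (L - 1) ≤ n → n < k ^ L → g n = ∑ A, st A * V A L n

lemma digit_part (k : ℕ) (hk : 2 ≤ k) (I : Finset ℕ) (J n j : ℕ) (hI : I ⊆ range J) (hj : j < J) :
    part k I n / k ^ j % k = if j ∈ I then n / k ^ j % k else 0 := by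
  classical
  have h1 : part k I n = ∑ i ∈ range J, (if i ∈ I then n / k ^ i % k else 0) * k ^ i := by
    simp only [ite_mul, zero_mul]
    rw [sum_ite_mem, inter_eq_right.2 hI, part]
  rw [h1, digit_sum k hk j (fun i => if i ∈ I then n / k ^ i % k else 0) _ J hj]
  intro i
  split_ifs
  · exact Nat.mod_lt _ (by omega)
  · omega

lemma digit_rest (k : ℕ) (hk : 2 ≤ k) (I : Finset ℕ) (J n j : ℕ) (hI : I ⊆ range J)
    (hn : n < k ^ J) (hj : j < J) (hjI : j ∉ I) :
    (n - part k I n) / k ^ j % k = n / k ^ j % k := by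
  classical
  have h1 : n = ∑ i ∈ range J \ I, (n / k ^ i % k) * k ^ i + part k I n := by
    rw [part, sum_sdiff hI, sum_digits, Nat.mod_eq_of_lt hn]
  have h3 : part k (range J \ I) n = ∑ i ∈ range J \ I, (n / k ^ i % k) * k ^ i := rfl
  have h2 : n - part k I n = part k (range J \ I) n := by omega
  rw [h2, digit_part k hk _ J n j sdiff_subset hj, if_pos]
  rw [mem_sdiff, mem_range]
  exact ⟨hj, hjI⟩

lemma digit_low (k : ℕ) (hk : 2 ≤ k) (u J n j : ℕ) (hj : j < J) :
    (u * k ^ J + n) / k ^ j % k = n / k ^ j % k := by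
  have h1 : u * k ^ J + n = k ^ j * (k * (u * k ^ (J - j - 1))) + n := by
    have : k ^ J = k ^ j * k * k ^ (J - j - 1) := by
      rw [← pow_succ, ← pow_add]; congr 1; omega
    rw [this]; ring
  rw [h1, Nat.mul_add_div (by positivity), Nat.mul_add_mod]

lemma digit_high (k : ℕ) (hk : 2 ≤ k) (u J n j : ℕ) (hj : J ≤ j) (hn : n < k ^ J) :
    (u * k ^ J + n) / k ^ j = u / k ^ (j - J) := by
  have h1 : k ^ j = k ^ J * k ^ (j - J) := by rw [← pow_add]; congr 1; omega
  rw [h1, ← Nat.div_div_eq_div_mul, mul_comm u, Nat.mul_add_div (by positivity),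
    Nat.div_eq_of_lt hn, add_zero]

lemma readOnce_scale (k : ℕ) (hk : 2 ≤ k) (g : ℕ → ℝ) (p J d q0 : ℕ) (hp : 1 ≤ p)
    (ρ : ℕ → ℕ) (M : ℕ → ℕ → Matrix (Fin d) (Fin d) ℝ) (a e : Fin d → ℝ)
    (hρ : Set.BijOn ρ (Set.Iio (p + J)) (Set.Iio (p + J)))
    (hearly : ∀ j < p + J, p + J - p ≤ j → ∃ i < p + q0, ρ i = j)
    (hg : ∀ n, k ^ (p + J - 1) ≤ n → n < k ^ (p + J) → g n =
      a ⬝ᵥ ((((List.range (p + J)).map (fun i => M i (n / k ^ (ρ i) % k))).prod).mulVec e)) :
    OneScale k p q0 d J g := by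
  classical
  have hk0 : 0 < k := by omega
  set m0 := min (p + q0) (p + J) with hm0
  set P := (range m0).image ρ with hP
  set I := P.filter (fun j => j < J) with hI
  have hIJ : I ⊆ range J := by
    intro j hj; rw [hI, mem_filter] at hj; exact mem_range.2 hj.2
  have htop : Ico J (p + J) ⊆ P.filter (fun j => ¬ j < J) := by
    intro j hj
    rw [mem_Ico] at hj
    rw [mem_filter, hP, mem_image]
    refine ⟨?_, by omega⟩
    obtain ⟨i, hi, hij⟩ := hearly j hj.2 (by omega)
    have hjm : j ∈ Set.Iio (p + J) := hj.2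
    by_cases hiL : i < p + J
    · exact ⟨i, mem_range.2 (by omega), hij⟩
    · -- then `m0 = p + J` and the place is read anyway
      obtain ⟨i', hi', hij'⟩ := hρ.surjOn hjm
      rw [Set.mem_Iio] at hi'
      exact ⟨i', mem_range.2 (by omega), hij'⟩
  have hcard : I.card ≤ q0 := by
    have h1 : P.card ≤ m0 := by
      refine card_image_le.trans ?_
      rw [card_range]
    have h2 := card_filter_add_card_filter_not (s := P) (fun j => j < J)
    have h3 := card_le_card htop
    rw [Nat.card_Ico] at h3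
    have h4 : I.card + (P.filter (fun j => ¬ j < J)).card = P.card := h2
    omega
  refine ⟨fun _ => I, fun u s y => (Matrix.vecMul a
      (((List.range m0).map (fun i => M i ((u * k ^ J + y) / k ^ (ρ i) % k))).prod)) s,
    fun s w => ((((List.range (p + J - m0)).map
      (fun i => M (m0 + i) (w / k ^ (ρ (m0 + i)) % k))).prod).mulVec e) s, fun _ => hcard, ?_⟩
  intro u hu1 hu2 n hn
  have hn' : part k I n < k ^ J := lt_of_le_of_lt (part_le k I J n hIJ) hn
  have hN1 : k ^ (p + J - 1) ≤ u * k ^ J + n := by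
    calc k ^ (p + J - 1) = k ^ (p - 1) * k ^ J := by rw [← pow_add]; congr 1; omega
      _ ≤ u * k ^ J := Nat.mul_le_mul_right _ hu1
      _ ≤ _ := Nat.le_add_right _ _
  have hN2 : u * k ^ J + n < k ^ (p + J) := by
    calc u * k ^ J + n < u * k ^ J + k ^ J := by omega
      _ = (u + 1) * k ^ J := by ring
      _ ≤ k ^ p * k ^ J := Nat.mul_le_mul_right _ hu2
      _ = k ^ (p + J) := by rw [pow_add]
  rw [hg _ hN1 hN2]
  have hsplit : p + J = m0 + (p + J - m0) := by omega
  have hlist : (List.range (p + J)).map (fun i => M i ((u * k ^ J + n) / k ^ (ρ i) % k)) =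
      (List.range m0).map (fun i => M i ((u * k ^ J + part k I n) / k ^ (ρ i) % k)) ++
      (List.range (p + J - m0)).map
        (fun i => M (m0 + i) ((n - part k I n) / k ^ (ρ (m0 + i)) % k)) := by
    conv_lhs => rw [hsplit, List.range_add, List.map_append, List.map_map]
    congr 1
    · apply List.map_congr_left
      intro i hi
      rw [List.mem_range] at hi
      congr 1
      have hiL : i ∈ Set.Iio (p + J) := by rw [Set.mem_Iio]; omega
      have hρi := hρ.mapsTo hiL
      rw [Set.mem_Iio] at hρi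
      by_cases hJ : ρ i < J
      · rw [digit_low k hk u J n _ hJ, digit_low k hk u J _ _ hJ,
          digit_part k hk I J n _ hIJ hJ, if_pos]
        rw [hI, mem_filter, hP, mem_image]
        exact ⟨⟨i, mem_range.2 hi, rfl⟩, hJ⟩
      · push Not at hJ
        rw [digit_high k hk u J n _ hJ hn, digit_high k hk u J _ _ hJ hn']
    · apply List.map_congr_left
      intro i hi
      rw [List.mem_range] at hi
      simp only [Function.comp]
      congr 1
      have hiL : m0 + i ∈ Set.Iio (p + J) := by rw [Set.mem_Iio]; omega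
      have hρi := hρ.mapsTo hiL
      rw [Set.mem_Iio] at hρi
      have hnP : ρ (m0 + i) ∉ P := by
        rw [hP, mem_image]
        rintro ⟨i', hi', he⟩
        rw [mem_range] at hi'
        have hi'L : i' ∈ Set.Iio (p + J) := by rw [Set.mem_Iio]; omega
        have := hρ.injOn hi'L hiL he
        omega
      have hJ : ρ (m0 + i) < J := by
        by_contra hJ
        push Not at hJ
        have h1 := htop (mem_Ico.2 ⟨hJ, hρi⟩)
        rw [mem_filter] at h1
        exact hnP h1.1
      rw [digit_low k hk u J n _ hJ, digit_rest k hk I J n _ hIJ hn hJ]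
      intro h
      rw [hI, mem_filter] at h
      exact hnP h.1
  rw [hlist, List.prod_append, ← Matrix.mulVec_mulVec, Matrix.dotProduct_mulVec]
  rfl

theorem readOnce (k : ℕ) (hk : 2 ≤ k) (g : ℕ → ℝ) (hg : ReadOnce k g) :
    ∃ p q R L₁ : ℕ, R < k ^ p - k ^ (p - 1) ∧ ∀ J ≥ L₁, OneScale k p q R J g := by
  obtain ⟨d, L₀, q, h⟩ := hg
  refine ⟨d + 1, q (d + 1), d, L₀, ?_, ?_⟩
  · rw [Nat.add_sub_cancel]
    have h1 : d < 2 ^ d := Nat.lt_two_pow_self
    have h2 : 2 ^ d ≤ k ^ d := Nat.pow_le_pow_left hk _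
    have h3 : k ^ (d + 1) = k ^ d * k := pow_succ _ _
    have h4 : 2 * k ^ d ≤ k ^ d * k := by nlinarith
    omega
  · intro J hJ
    obtain ⟨ρ, M, a, e, h1, h2, h3⟩ := h (d + 1 + J) (by omega)
    exact readOnce_scale k hk g (d + 1) J d (q (d + 1)) (by omega) ρ M a e h1
      (fun j hj hj2 => h2 (d + 1) (by omega) j hj hj2) h3

end Pool.Agent.Q217.TE
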