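import Mathlib
import Pool.Agent.Q217.TE.Classes

/-!
# Weighted linear grammars
-/

set_option autoImplicit false

namespace Pool.Agent.Q217.TE

open Finset

/-- the middle part of `n`: the digits at the places `t, …, t + s - 1` -/
lemma mid_mid (k n t s t' s' : ℕ) (hs : t' + s' ≤ s) :
    (n / k ^ t % k ^ s) / k ^ t' % k ^ s' = n / k ^ (t + t') % k ^ s' := by
  have h1 : k ^ s = k ^ t' * k ^ (s - t') := by rw [← pow_add]; congr 1; omega
  rw [h1, Nat.mod_mul_right_div_self, Nat.div_div_eq_div_mul, ← pow_add, Nat.mod_mod_of_dvd]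
  exact pow_dvd_pow k (by omega)

lemma grammar_iter (k : ℕ) (hk : 2 ≤ k) (d C L₀ : ℕ) (V : Fin d → ℕ → ℕ → ℝ)
    (wt : Fin d → Fin d → ℕ → ℕ → ℕ → ℝ)
    (hV : ∀ A L n, L₀ ≤ L → C + 1 ≤ L → n < k ^ L → V A L n = ∑ A', ∑ t ∈ range (C + 1),
      wt A A' (n / k ^ (L - 1)) t (n % k ^ t) * V A' (L - 1 - t) (n / k ^ t % k ^ (L - 1 - t)))
    (r : ℕ) : ∃ γ : Fin d → Fin d → ℕ → ℕ → ℕ → ℝ, ∀ A L n, L₀ + (r + 1) * (C + 1) ≤ L →
      n < k ^ L → V A L n = ∑ A', ∑ t ∈ range (C * r + 1),
        γ A A' (n / k ^ (L - r)) t (n % k ^ t) * V A' (L - r - t) (n / k ^ t % k ^ (L - r - t)) := by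
  classical
  have hk0 : 0 < k := by omega
  induction r with
  | zero =>
    refine ⟨fun A A' _ _ _ => if A = A' then 1 else 0, fun A L n hL hn => ?_⟩
    simp only [mul_zero, zero_add, range_one, sum_singleton, Nat.sub_zero, pow_zero, Nat.div_one,
      ite_mul, one_mul, zero_mul, sum_ite_eq, mem_univ, if_true]
    rw [Nat.mod_eq_of_lt hn]
  | succ r ih =>
    obtain ⟨γ, hγ⟩ := ih
    refine ⟨fun A B' X T y => ∑ B, ∑ t ∈ range (C * r + 1), ∑ t' ∈ range (C + 1),
      if t + t' = T then γ A B (X / k) t (y % k ^ t) * wt B B' (X % k) t' (y / k ^ t) else 0,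
      fun A L n hL hn => ?_⟩
    have e0 : (r + 1 + 1) * (C + 1) = (r + 1) * (C + 1) + (C + 1) := by ring
    have e1 : (r + 1) * (C + 1) = C * r + r + C + 1 := by ring
    rw [hγ A L n (by omega) hn]
    -- expand the inner value
    have hinner : ∀ B, ∀ t ∈ range (C * r + 1),
        γ A B (n / k ^ (L - r)) t (n % k ^ t) * V B (L - r - t) (n / k ^ t % k ^ (L - r - t)) =
        ∑ B', ∑ t' ∈ range (C + 1),
          γ A B (n / k ^ (L - r)) t (n % k ^ t) *
            wt B B' (n / k ^ (L - (r + 1)) % k) t' (n / k ^ t % k ^ t') *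
            V B' (L - (r + 1) - (t + t')) (n / k ^ (t + t') % k ^ (L - (r + 1) - (t + t'))) := by
      intro B t ht
      rw [mem_range] at ht
      have hlt : n / k ^ t % k ^ (L - r - t) < k ^ (L - r - t) := Nat.mod_lt _ (by positivity)
      rw [hV B (L - r - t) _ (by omega) (by omega) hlt, mul_sum]
      apply sum_congr rfl
      intro B' _
      rw [mul_sum]
      apply sum_congr rfl
      intro t' ht'
      rw [mem_range] at ht'
      have a1 : (n / k ^ t % k ^ (L - r - t)) / k ^ (L - r - t - 1) = n / k ^ (L - (r + 1)) % k := by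
        have h1 := mid_mid k n t (L - r - t) (L - r - t - 1) 1 (by omega)
        rw [pow_one] at h1
        have h2 : t + (L - r - t - 1) = L - (r + 1) := by omega
        rw [h2] at h1
        rw [← h1]
        symm
        apply Nat.mod_eq_of_lt
        rw [Nat.div_lt_iff_lt_mul (by positivity)]
        calc n / k ^ t % k ^ (L - r - t) < k ^ (L - r - t) := hlt
          _ = k * k ^ (L - r - t - 1) := by rw [← pow_succ']; congr 1; omega
      have a2 : (n / k ^ t % k ^ (L - r - t)) % k ^ t' = n / k ^ t % k ^ t' :=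
        Nat.mod_mod_of_dvd _ (pow_dvd_pow k (by omega))
      have a3 : L - r - t - 1 - t' = L - (r + 1) - (t + t') := by omega
      have a4 := mid_mid k n t (L - r - t) t' (L - (r + 1) - (t + t')) (by omega)
      rw [a1, a2, a3, a4, mul_assoc]
    have hLHS : ∑ B, ∑ t ∈ range (C * r + 1),
        γ A B (n / k ^ (L - r)) t (n % k ^ t) * V B (L - r - t) (n / k ^ t % k ^ (L - r - t)) =
        ∑ B, ∑ t ∈ range (C * r + 1), ∑ B', ∑ t' ∈ range (C + 1),
          γ A B (n / k ^ (L - r)) t (n % k ^ t) *
            wt B B' (n / k ^ (L - (r + 1)) % k) t' (n / k ^ t % k ^ t') *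
            V B' (L - (r + 1) - (t + t')) (n / k ^ (t + t') % k ^ (L - (r + 1) - (t + t'))) := by
      apply sum_congr rfl
      intro B _
      exact sum_congr rfl (hinner B)
    rw [hLHS]
    have hRHS : ∀ B', ∑ T ∈ range (C * (r + 1) + 1),
        (∑ B, ∑ t ∈ range (C * r + 1), ∑ t' ∈ range (C + 1),
          if t + t' = T then γ A B (n / k ^ (L - (r + 1)) / k) t (n % k ^ T % k ^ t) *
            wt B B' (n / k ^ (L - (r + 1)) % k) t' (n % k ^ T / k ^ t) else 0) *
          V B' (L - (r + 1) - T) (n / k ^ T % k ^ (L - (r + 1) - T)) =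
        ∑ B, ∑ t ∈ range (C * r + 1), ∑ t' ∈ range (C + 1),
          γ A B (n / k ^ (L - r)) t (n % k ^ t) *
            wt B B' (n / k ^ (L - (r + 1)) % k) t' (n / k ^ t % k ^ t') *
            V B' (L - (r + 1) - (t + t')) (n / k ^ (t + t') % k ^ (L - (r + 1) - (t + t'))) := by
      intro B'
      simp only [sum_mul]
      rw [sum_comm]
      apply sum_congr rfl
      intro B _
      rw [sum_comm]
      apply sum_congr rfl
      intro t ht
      rw [sum_comm]
      apply sum_congr rfl
      intro t' ht'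
      rw [mem_range] at ht ht'
      have hmem : t + t' ∈ range (C * (r + 1) + 1) := by
        rw [mem_range]
        have : C * (r + 1) = C * r + C := by ring
        omega
      rw [sum_eq_single (t + t')]
      · rw [if_pos rfl]
        have b1 : n / k ^ (L - (r + 1)) / k = n / k ^ (L - r) := by
          rw [Nat.div_div_eq_div_mul, ← pow_succ]
          congr 2; omega
        have b2 : n % k ^ (t + t') % k ^ t = n % k ^ t :=
          Nat.mod_mod_of_dvd _ (pow_dvd_pow k (by omega))
        have b3 : n % k ^ (t + t') / k ^ t = n / k ^ t % k ^ t' := by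
          rw [pow_add, Nat.mod_mul_right_div_self]
        rw [b1, b2, b3]
      · intro T _ hT
        rw [if_neg (fun h => hT h.symm), zero_mul]
      · intro h; exact absurd hmem h
    rw [sum_congr rfl (fun B' _ => hRHS B')]
    refine (sum_congr rfl (fun B _ => sum_comm)).trans ?_
    exact sum_comm

theorem twoEnded (k : ℕ) (hk : 2 ≤ k) (g : ℕ → ℝ) (hg : TwoEnded k g) :
    ∃ p q R L₁ : ℕ, R < k ^ p - k ^ (p - 1) ∧ ∀ J ≥ L₁, OneScale k p q R J g := by
  classical
  have hk0 : 0 < k := by omega
  obtain ⟨d, C, L₀, V, wt, st, hV, hgV⟩ := hg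
  set m := 2 * d * (C + 1) with hm
  set p := 2 * m + 1 with hp
  obtain ⟨γ, hγ⟩ := grammar_iter k hk d C L₀ V wt hV p
  refine ⟨p, C * p, d * (C * p + 1), L₀ + (p + 1) * (C + 1), ?_, ?_⟩
  · -- the number of states is small
    have h1 : d * (C * p + 1) < (m + 1) * (m + 1) := by
      have e1 : d * (C * p + 1) ≤ m * (m + 1) := by
        have e2 : C * p + 1 ≤ (C + 1) * (2 * (m + 1)) := by rw [hp]; nlinarith
        calc d * (C * p + 1) ≤ d * ((C + 1) * (2 * (m + 1))) := Nat.mul_le_mul_left _ e2
          _ = m * (m + 1) := by rw [hm]; ring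
      nlinarith
    have h2 : m + 1 ≤ 2 ^ m := Nat.lt_two_pow_self
    have h3 : (m + 1) * (m + 1) ≤ 2 ^ (2 * m) := by
      rw [two_mul, pow_add]; exact Nat.mul_le_mul h2 h2
    have h4 : 2 ^ (2 * m) ≤ k ^ (2 * m) := Nat.pow_le_pow_left hk _
    have h5 : k ^ p = k ^ (2 * m) * k := by rw [hp, pow_succ]
    have h6 : p - 1 = 2 * m := by omega
    have h7 : 2 * k ^ (2 * m) ≤ k ^ (2 * m) * k := by nlinarith
    rw [h6]
    omega
  · intro J hJ
    let eqv : Fin d × Fin (C * p + 1) ≃ Fin (d * (C * p + 1)) := finProdFinEquiv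
    refine ⟨fun i => range ((eqv.symm i).2 : ℕ),
      fun u i y => ∑ A, st A * γ A (eqv.symm i).1 u (eqv.symm i).2 y,
      fun i w => V (eqv.symm i).1 (J - (eqv.symm i).2) (w / k ^ ((eqv.symm i).2 : ℕ)), ?_, ?_⟩
    · intro i
      rw [card_range]
      have := (eqv.symm i).2.2
      omega
    · intro u hu1 hu2 n hn
      have hp1 : p - 1 + J = p + J - 1 := by omega
      have hN1 : k ^ (p + J - 1) ≤ u * k ^ J + n := by
        calc k ^ (p + J - 1) = k ^ (p - 1) * k ^ J := by rw [← pow_add, hp1]
          _ ≤ u * k ^ J := Nat.mul_le_mul_right _ hu1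
          _ ≤ _ := Nat.le_add_right _ _
      have hN2 : u * k ^ J + n < k ^ (p + J) := by
        calc u * k ^ J + n < u * k ^ J + k ^ J := by omega
          _ = (u + 1) * k ^ J := by ring
          _ ≤ k ^ p * k ^ J := Nat.mul_le_mul_right _ hu2
          _ = k ^ (p + J) := (pow_add k p J).symm
      rw [hgV (p + J) _ (by omega) hN1 hN2]
      have hexp : (p + 1) * (C + 1) = C * p + p + C + 1 := by ring
      have hterm : ∀ A, V A (p + J) (u * k ^ J + n) = ∑ x : Fin d × Fin (C * p + 1),
          γ A x.1 u x.2 (part k (range (x.2 : ℕ)) n) *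
            V x.1 (J - x.2) ((n - part k (range (x.2 : ℕ)) n) / k ^ (x.2 : ℕ)) := by
        intro A
        rw [hγ A (p + J) _ (by omega) hN2, Fintype.sum_prod_type]
        apply sum_congr rfl
        intro A' _
        rw [Finset.sum_range]
        apply sum_congr rfl
        intro t _
        have ht := t.2
        have htJ : (t : ℕ) ≤ J := by omega
        have c1 : (u * k ^ J + n) / k ^ (p + J - p) = u := by
          rw [Nat.add_sub_cancel_left, mul_comm u, Nat.mul_add_div (by positivity),
            Nat.div_eq_of_lt hn, add_zero]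
        have c0 : u * k ^ J + n = k ^ (t : ℕ) * (u * k ^ (J - t)) + n := by
          have : k ^ J = k ^ (t : ℕ) * k ^ (J - t) := by rw [← pow_add]; congr 1; omega
          rw [this]; ring
        have c2 : (u * k ^ J + n) % k ^ (t : ℕ) = part k (range (t : ℕ)) n := by
          rw [part, sum_digits, c0, Nat.mul_add_mod]
        have c3 : p + J - p - (t : ℕ) = J - t := by omega
        have c4 : (u * k ^ J + n) / k ^ (t : ℕ) % k ^ (J - t) =
            (n - part k (range (t : ℕ)) n) / k ^ (t : ℕ) := by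
          rw [part, sum_digits, c0, Nat.mul_add_div (by positivity), mul_comm u,
            Nat.mul_add_mod]
          have d1 : n - n % k ^ (t : ℕ) = k ^ (t : ℕ) * (n / k ^ (t : ℕ)) := by
            have := Nat.div_add_mod n (k ^ (t : ℕ)); omega
          rw [d1, Nat.mul_div_cancel_left _ (by positivity)]
          apply Nat.mod_eq_of_lt
          rw [Nat.div_lt_iff_lt_mul (by positivity), ← pow_add]
          calc n < k ^ J := hn
            _ = k ^ (J - t + t) := by congr 1; omega
        rw [c1, c2, c3, c4]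
      rw [← Equiv.sum_comp eqv]
      simp only [Equiv.symm_apply_apply, sum_mul]
      rw [sum_comm]
      apply sum_congr rfl
      intro A _
      rw [hterm A, mul_sum]
      apply sum_congr rfl
      intro x _
      ring

end Pool.Agent.Q217.TE
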